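import Pool.Agent.U97.GZ.LIM0

/-! Project GZ (helper79), package LIMK: Euler's identity for all dimensions of the kernel. -/

set_option autoImplicit false

namespace Pool.Agent.U780.GZ

open Finset Filter Topology
open Pool.Agent.U97.GZ (ak eta G P G_one G_eta G_near sum_G sum_tail tail_le ak_pos ak_small ak_zero
  num two_sub)

/-- the limit of the proportion of the kernels with `2 ^ t` elements -/
noncomputable def et (t : ℕ) : ℝ := 2 ^ t * ak t ^ 2 * eta

/-- the coefficients -/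
noncomputable def bk (t j : ℕ) : ℝ :=
  (1 / 2 : ℝ) ^ (t * j) * ak j * ((1 / 2 : ℝ) ^ (t * (t - 1) / 2) * ak t)

theorem ak_le_one (k : ℕ) : ak k ≤ 1 := by
  unfold ak
  refine prod_le_one (fun i _ => ?_) (fun i _ => ?_)
  · have h := two_sub i
    positivity
  · have h := two_sub i
    rw [div_le_one (by linarith)]
    exact h

/-- the front factor -/
noncomputable def cf (t : ℕ) : ℝ := (1 / 2 : ℝ) ^ (t * (t - 1) / 2) * ak t

theorem cf_nonneg (t : ℕ) : 0 ≤ cf t := by
  unfold cf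
  have h := ak_pos t
  positivity

theorem cf_le (t : ℕ) : cf t ≤ 1 := by
  unfold cf
  exact mul_le_one₀ (pow_le_one₀ (by norm_num) (by norm_num)) (ak_pos t).le (ak_le_one t)

theorem tri (t : ℕ) : (t + 1) * (t + 1 - 1) / 2 = t * (t - 1) / 2 + t := by
  have h : t + 1 - 1 = t := rfl
  rw [h]
  cases t with
  | zero => rfl
  | succ t =>
    have h2 : t + 1 - 1 = t := rfl
    rw [h2]
    have e : (t + 1 + 1) * (t + 1) = (t + 1) * t + 2 * (t + 1) := by ring
    rw [e, Nat.add_mul_div_left _ _ (by norm_num)]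

theorem P_eq (t : ℕ) : 2 ^ t * ak t * P t = cf t / ak t := by
  have h0 : ∀ t, ak t ≠ 0 := fun t => (ak_pos t).ne'
  induction t with
  | zero => simp [P, cf, ak]
  | succ t ih =>
    have h1 : cf (t + 1) / ak (t + 1) = cf t / ak t * (1 / 2) ^ t := by
      unfold cf
      rw [tri, pow_add, mul_div_assoc, div_self (h0 _), mul_one, mul_div_assoc, div_self (h0 _),
        mul_one]
    have h2 := Pool.Agent.U97.GZ.ak_succ t
    have h3 : P (t + 1) = P t * (1 - (1 / 2 : ℝ) ^ (t + 1)) := by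
      unfold P
      rw [prod_range_succ]
    have h4 : (1 - (1 / 2 : ℝ) ^ (t + 1)) * 2 ^ (t + 1) = 2 ^ (t + 1) - 1 := by
      rw [sub_mul, ← mul_pow]
      norm_num
    have h5 : ak (t + 1) * P (t + 1) * 2 ^ (t + 1) = ak t * P t := by
      rw [h3, ← h2]
      linear_combination (ak (t + 1) * P t) * h4
    have h6 : (2 : ℝ) ^ (t + 1) * ak (t + 1) * P (t + 1) = ak t * P t := by
      rw [← h5]; ring
    rw [h6, h1, ← ih]
    have h7 : (2 : ℝ) ^ t * (1 / 2) ^ t = 1 := by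
      rw [← mul_pow]; norm_num
    linear_combination -(ak t * P t) * h7

theorem P_pos (t : ℕ) : 0 < P t := by
  unfold P
  refine prod_pos fun i _ => ?_
  have : (1 / 2 : ℝ) ^ (i + 1) < 1 := pow_lt_one₀ (by norm_num) (by norm_num) (by omega)
  linarith

theorem et_eq (t : ℕ) : et t = cf t * G ((1 / 2 : ℝ) ^ t) := by
  have h1 := G_one t
  rw [G_eta] at h1
  have h2 := P_eq t
  have h3 := (ak_pos t).ne'
  have h4 : 2 ^ t * ak t ^ 2 * P t = cf t := by
    rw [eq_div_iff h3] at h2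
    rw [← h2]; ring
  unfold et
  rw [h1, ← h4]
  ring

theorem err_t (t K : ℕ) : |∑ k ∈ range (K + 1), (-1 : ℝ) ^ k * ak k * ((1 / 2 : ℝ) ^ t) ^ k -
    G ((1 / 2 : ℝ) ^ t)| ≤ 3 / 2 * ak (K + 1) := by
  have hz0 : (0 : ℝ) ≤ (1 / 2) ^ t := by positivity
  have hz1 : (1 / 2 : ℝ) ^ t ≤ 1 := pow_le_one₀ (by norm_num) (by norm_num)
  have h1 := sum_G hz0 hz1
  have h2 := h1.sum_add_tsum_nat_add (K + 1)
  unfold G
  rw [← h2, sub_add_cancel_left, abs_neg, ← Real.norm_eq_abs]
  have h3 : ∀ k : ℕ, ‖(-1 : ℝ) ^ (k + (K + 1)) * ak (k + (K + 1)) *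
      ((1 / 2 : ℝ) ^ t) ^ (k + (K + 1))‖ ≤ ak (K + 1 + k) := by
    intro k
    have h4 := Pool.Agent.U97.GZ.term_le hz0 hz1 (k + (K + 1))
    rwa [add_comm k (K + 1)] at h4 ⊢
  exact (tsum_of_norm_bounded (sum_tail K).hasSum h3).trans (tail_le K)

theorem limk (t K : ℕ) :
    |∑ k ∈ range (K + 1), (-1 : ℝ) ^ k * bk t k - et t| ≤ (1 / 2 : ℝ) ^ K := by
  have e1 : ∑ k ∈ range (K + 1), (-1 : ℝ) ^ k * bk t k =
      cf t * ∑ k ∈ range (K + 1), (-1 : ℝ) ^ k * ak k * ((1 / 2 : ℝ) ^ t) ^ k := by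
    rw [mul_sum]
    refine sum_congr rfl fun k _ => ?_
    unfold bk cf
    rw [pow_mul]
    ring
  rw [e1, et_eq, ← mul_sub, abs_mul, abs_of_nonneg (cf_nonneg t)]
  have h1 : |∑ k ∈ range (K + 1), (-1 : ℝ) ^ k * ak k * ((1 / 2 : ℝ) ^ t) ^ k -
      G ((1 / 2 : ℝ) ^ t)| ≤ (1 / 2 : ℝ) ^ K := by
    cases K with
    | succ K => exact (err_t t (K + 1)).trans (ak_small K)
    | zero =>
      simp only [zero_add, range_one, sum_singleton, pow_zero, one_mul, ak_zero]
      cases t with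
      | zero =>
        rw [pow_zero, G_eta]
        have h := num
        rw [abs_le]
        constructor
        · norm_num at h ⊢
          linarith [h.2]
        · norm_num at h ⊢
          linarith [h.1]
      | succ t =>
        have hz0 : (0 : ℝ) ≤ (1 / 2) ^ (t + 1) := by positivity
        have hz1 : (1 / 2 : ℝ) ^ t ≤ 1 := pow_le_one₀ (by norm_num) (by norm_num)
        have hz2 : (1 / 2 : ℝ) ^ (t + 1) ≤ 1 / 2 := by
          rw [pow_succ]; linarith
        have h2 := G_near hz0 (by linarith)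
        rw [abs_sub_comm]
        linarith
  calc cf t * _ ≤ 1 * (1 / 2 : ℝ) ^ K :=
        mul_le_mul (cf_le t) h1 (abs_nonneg _) zero_le_one
    _ = (1 / 2 : ℝ) ^ K := one_mul _

end Pool.Agent.U780.GZ
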