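import Pool.Agent.U780.GZ.LIMK0

/-! Project GZ (helper79), package SUM: the identity of the Durfee square at one half. -/

set_option autoImplicit false

namespace Pool.Agent.U780.GZ

open Finset Filter Topology
open Pool.Agent.U97.GZ (ak eta P P_tendsto ak_succ num)

theorem P_succ (n : ℕ) : P (n + 1) = P n * (1 - (1 / 2 : ℝ) ^ (n + 1)) := by
  unfold P
  rw [prod_range_succ]

theorem P_anti : Antitone P := by
  refine antitone_nat_of_succ_le fun n => ?_
  rw [P_succ]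
  have h : (0 : ℝ) ≤ (1 / 2 : ℝ) ^ (n + 1) := by positivity
  have h2 := P_pos n
  nlinarith

theorem eta_le (n : ℕ) : eta ≤ P n := P_anti.le_of_tendsto P_tendsto n

theorem eta_pos : 0 < eta := by
  have h := num
  norm_num at h
  linarith [h.1]

/-- the limit law of the coranks of the `m × (m + d)` matrices -/
noncomputable def pd (d t : ℕ) : ℝ := (1 / 2 : ℝ) ^ (t * (t + d)) * eta / (P t * P (t + d))

theorem pd_nonneg (d t : ℕ) : 0 ≤ pd d t := by
  unfold pd
  have h1 := P_pos t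
  have h2 := P_pos (t + d)
  have h3 := eta_pos
  positivity

theorem pd_le (d t : ℕ) : pd d t ≤ (1 / 2 : ℝ) ^ (t * (t + d)) / eta := by
  unfold pd
  have h3 := eta_pos
  have h1 := eta_le t
  have h2 := eta_le (t + d)
  rw [div_le_div_iff₀ (mul_pos (P_pos _) (P_pos _)) h3, mul_assoc]
  refine mul_le_mul_of_nonneg_left ?_ (by positivity)
  exact mul_le_mul h1 h2 h3.le (P_pos _).le

theorem pd_le' (d t : ℕ) : pd d t ≤ 1 / eta * (1 / 2 : ℝ) ^ t := by
  refine (pd_le d t).trans ?_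
  rw [div_eq_mul_one_div, mul_comm]
  refine mul_le_mul_of_nonneg_left ?_ (by have := eta_pos; positivity)
  refine pow_le_pow_of_le_one (by norm_num) (by norm_num) ?_
  nlinarith [Nat.zero_le (t * d), Nat.le_mul_self t]

theorem pd_sum (d : ℕ) : Summable (pd d) :=
  Summable.of_nonneg_of_le (pd_nonneg d) (pd_le' d)
    ((summable_geometric_of_lt_one (by norm_num) (by norm_num)).mul_left _)

theorem pd_rec (d t : ℕ) : pd (d + 1) t =
    (1 / 2 : ℝ) ^ t * pd d t + (1 - (1 / 2 : ℝ) ^ (t + 1)) * pd d (t + 1) := by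
  unfold pd
  have e0 : t + (d + 1) = t + d + 1 := by ring
  have e1 : t + 1 + d = t + d + 1 := by ring
  rw [e0, e1, P_succ (t + d), P_succ t]
  have h1 := (P_pos t).ne'
  have h2 := (P_pos (t + d)).ne'
  have h3 : (1 - (1 / 2 : ℝ) ^ (t + 1)) ≠ 0 := by
    have : (1 / 2 : ℝ) ^ (t + 1) < 1 := pow_lt_one₀ (by norm_num) (by norm_num) (by omega)
    linarith
  have h4 : (1 - (1 / 2 : ℝ) ^ (t + d + 1)) ≠ 0 := by
    have : (1 / 2 : ℝ) ^ (t + d + 1) < 1 := pow_lt_one₀ (by norm_num) (by norm_num) (by omega)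
    linarith
  have h5 : (1 / 2 : ℝ) ^ (t * (t + d + 1)) = (1 / 2 : ℝ) ^ t * (1 / 2 : ℝ) ^ (t * (t + d)) := by
    rw [← pow_add]
    congr 1
    ring
  have h6 : (1 / 2 : ℝ) ^ ((t + 1) * (t + d + 1)) =
      (1 / 2 : ℝ) ^ t * (1 / 2 : ℝ) ^ (t * (t + d)) * (1 / 2 : ℝ) ^ (t + d + 1) := by
    rw [← pow_add, ← pow_add]
    congr 1
    ring
  rw [h5, h6]
  generalize (1 / 2 : ℝ) ^ (t + d + 1) = w at *
  generalize (1 / 2 : ℝ) ^ (t + 1) = v at *
  generalize (1 / 2 : ℝ) ^ (t * (t + d)) = y at *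
  generalize (1 / 2 : ℝ) ^ t = x at *
  field_simp
  ring

theorem tsum_succ (d : ℕ) : ∑' t, pd (d + 1) t = ∑' t, pd d t := by
  have hs := pd_sum d
  have h1 : Summable fun t : ℕ => (1 / 2 : ℝ) ^ t * pd d t := by
    refine Summable.of_nonneg_of_le (fun t => ?_) (fun t => ?_) hs
    · have := pd_nonneg d t
      positivity
    · exact mul_le_of_le_one_left (pd_nonneg d t) (pow_le_one₀ (by norm_num) (by norm_num))
  have h2 : Summable fun t : ℕ => (1 - (1 / 2 : ℝ) ^ t) * pd d t :=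
    (hs.sub h1).congr fun t => by ring
  have h3 : Summable fun t : ℕ => (1 - (1 / 2 : ℝ) ^ (t + 1)) * pd d (t + 1) :=
    (summable_nat_add_iff 1).2 h2
  rw [tsum_congr fun t => pd_rec d t, h1.tsum_add h3]
  have h4 : ∑' t : ℕ, (1 - (1 / 2 : ℝ) ^ t) * pd d t =
      ∑' t : ℕ, (1 - (1 / 2 : ℝ) ^ (t + 1)) * pd d (t + 1) := by
    rw [h2.tsum_eq_zero_add]
    simp
  rw [← h4, ← h1.tsum_add h2]
  exact tsum_congr fun t => by ring

theorem tsum_const (d : ℕ) : ∑' t, pd d t = ∑' t, pd 0 t := by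
  induction d with
  | zero => rfl
  | succ d ih => rw [tsum_succ, ih]

theorem tsum_near (d : ℕ) : |∑' t, pd 0 t - eta / P d| ≤ 2 / eta * (1 / 2 : ℝ) ^ d := by
  have hs := pd_sum d
  rw [← tsum_const d, hs.tsum_eq_zero_add]
  have h0 : pd d 0 = eta / P d := by
    unfold pd
    simp [P]
  rw [h0, add_sub_cancel_left, abs_of_nonneg (tsum_nonneg fun t => pd_nonneg d (t + 1))]
  have h1 : ∀ t : ℕ, pd d (t + 1) ≤ 1 / eta * (1 / 2 : ℝ) ^ d * (1 / 2 : ℝ) ^ t := by
    intro t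
    refine (pd_le d (t + 1)).trans ?_
    rw [div_eq_mul_one_div, mul_comm, mul_assoc, ← pow_add]
    refine mul_le_mul_of_nonneg_left ?_ (by have := eta_pos; positivity)
    refine pow_le_pow_of_le_one (by norm_num) (by norm_num) ?_
    nlinarith [Nat.zero_le (t * d), Nat.zero_le (t * t)]
  have h2 : Summable fun t : ℕ => 1 / eta * (1 / 2 : ℝ) ^ d * (1 / 2 : ℝ) ^ t :=
    (summable_geometric_of_lt_one (by norm_num) (by norm_num)).mul_left _
  refine (((summable_nat_add_iff 1).2 hs).tsum_le_tsum h1 h2).trans ?_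
  rw [tsum_mul_left, tsum_geometric_of_lt_one (by norm_num) (by norm_num)]
  apply le_of_eq
  norm_num
  ring

theorem tsum_one : ∑' t, pd 0 t = 1 := by
  have h1 : Tendsto (fun d : ℕ => eta / P d) atTop (𝓝 1) := by
    have h := (tendsto_const_nhds (x := eta)).div P_tendsto eta_pos.ne'
    rwa [div_self eta_pos.ne'] at h
  have h2 : Tendsto (fun d : ℕ => eta / P d) atTop (𝓝 (∑' t, pd 0 t)) := by
    rw [tendsto_iff_dist_tendsto_zero]
    have h3 : Tendsto (fun d : ℕ => 2 / eta * (1 / 2 : ℝ) ^ d) atTop (𝓝 0) := by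
      have := (tendsto_pow_atTop_nhds_zero_of_lt_one (by norm_num : (0:ℝ) ≤ 1/2)
        (by norm_num)).const_mul (2 / eta : ℝ)
      rwa [mul_zero] at this
    refine squeeze_zero (fun n => dist_nonneg) (fun d => ?_) h3
    rw [Real.dist_eq, abs_sub_comm]
    exact tsum_near d
  exact tendsto_nhds_unique h2 h1

theorem sq_eq (t : ℕ) : 2 ^ t * (ak t * P t) ^ 2 = (1 / 2 : ℝ) ^ (t * t) := by
  induction t with
  | zero => simp [P, ak]
  | succ t ih =>
    have h2 := ak_succ t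
    have h4 : (1 - (1 / 2 : ℝ) ^ (t + 1)) * 2 ^ (t + 1) = 2 ^ (t + 1) - 1 := by
      rw [sub_mul, ← mul_pow]
      norm_num
    have h5 : ak (t + 1) * P (t + 1) * 2 ^ (t + 1) = ak t * P t := by
      rw [P_succ, ← h2]
      linear_combination (ak (t + 1) * P t) * h4
    have h6 : (1 / 2 : ℝ) ^ ((t + 1) * (t + 1)) = (1 / 2 : ℝ) ^ (t * t) * (1 / 2) ^ (2 * t + 1) := by
      rw [← pow_add]
      congr 1
      ring
    have h7 : (2 : ℝ) ^ (t + 1) * (1 / 2) ^ (t + 1) = 1 := by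
      rw [← mul_pow]; norm_num
    rw [h6, ← ih, ← h5]
    have h8 : (1 / 2 : ℝ) ^ (2 * t + 1) = 2 * ((1 / 2 : ℝ) ^ (t + 1)) ^ 2 := by
      rw [← pow_mul]
      have : (1 / 2 : ℝ) ^ ((t + 1) * 2) = (1 / 2 : ℝ) ^ (2 * t + 1) * (1 / 2) := by
        rw [← pow_succ]
        congr 1
        ring
      rw [this]; ring
    rw [h8]
    have h9 : (2 : ℝ) ^ (t + 1) = 2 ^ t * 2 := pow_succ _ _
    generalize ak (t + 1) * P (t + 1) = a at *
    calc (2 : ℝ) ^ (t + 1) * a ^ 2 = 2 ^ t * 2 * a ^ 2 * 1 ^ 2 := by rw [h9]; ring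
      _ = 2 ^ t * 2 * a ^ 2 * ((2 : ℝ) ^ (t + 1) * (1 / 2) ^ (t + 1)) ^ 2 := by rw [h7]
      _ = _ := by ring

theorem et_pd (t : ℕ) : et t = pd 0 t := by
  have h := sq_eq t
  have h1 := (P_pos t).ne'
  unfold et pd
  rw [add_zero, ← h]
  field_simp

theorem sum_et : HasSum et 1 := by
  have h : et = pd 0 := funext et_pd
  rw [h, ← tsum_one]
  exact (pd_sum 0).hasSum

end Pool.Agent.U780.GZ
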