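import Pool.Agent.U79.GZ.Stm5
import Pool.Agent.U780.GZ.SUM0

/-! Project GZ (helper79), package SUM. -/

set_option autoImplicit false

namespace Pool.Agent.U780.GZ

theorem t_SUM : Pool.Agent.U79.GZ.S_SUM := sum_et

end Pool.Agent.U780.GZ
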